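import Pool.Agent.GT.StmtsB

/-!
# Squad GT, row B_CNS: the step of the counting lemma
-/

namespace Pool.Agent.GT.H86

open Finset Pool.Agent.GT

theorem hlf_mono {K : ℕ} {X : Type} [Fintype X] {μ : Fin K → (Fin K → X) → ℝ} {ε ε' : ℝ}
    (h : HLF μ ε) (he : ε ≤ ε') : HLF μ ε' := fun S hS => (h S hS).trans he

theorem cut_mono {K : ℕ} {X : Type} [Fintype X] {j : Fin K} {f : (Fin K → X) → ℝ} {ε ε' : ℝ}
    (h : Cut j f ε) (he : ε ≤ ε') : Cut j f ε' := fun u h1 h2 => (h u h1 h2).trans he

/-- the marginal -/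
theorem av_marg {K : ℕ} {X : Type} [Fintype X] [Nonempty X] (a : Fin K)
    (φ : (Fin K → X) → ℝ) (hφ : Ind a φ) (g : Fin K → (Fin K → X) → ℝ) :
    av (fun x => φ x * ∏ j ∈ univ.erase a, g j x) =
      av (fun x => φ x * av (fun s => ∏ j ∈ univ.erase a, g j (Function.update x a s))) := by
  rw [av_update a]
  simp only [← av_mul_left]
  refine congrArg av (funext fun x => congrArg av (funext fun s => ?_))
  rw [hφ x s]

theorem av_fst {K : ℕ} {X : Type} [Fintype X] [Nonempty X] (f : (Fin K → X) → ℝ) :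
    av (fun z : (Fin K → X) × (Fin K → X) => f z.1) = av f := by
  rw [av_prod]
  simp only [av_const]

theorem av_mu {K : ℕ} {X : Type} [Fintype X] [Nonempty X] {μ : Fin K → (Fin K → X) → ℝ} {ε : ℝ}
    (h : HLF μ ε) (a : Fin K) : av (μ a) ≤ 1 + ε := by
  have h1 := h {(a, fun _ => false)} (by
    intro p hp
    rw [mem_singleton] at hp
    rw [hp])
  simp only [prod_singleton, mix_false] at h1
  rw [av_fst (μ a)] at h1
  linarith [(abs_le.1 h1).2]

/-- row B_CNS -/
theorem b_cns (one : OneStmt) (cap : CapStmt) : CnsStmt := by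
  intro K A a ha hCN η hη
  have hη2 : 0 < η ^ 2 / 16 := by positivity
  obtain ⟨ε1, hε1, h1⟩ := one K (insert a A) a (η ^ 2 / 16) hη2
  obtain ⟨ε2, hε2, h2⟩ := cap K A a ha hCN (η ^ 2 / 16) hη2
  set ε : ℝ := min (min ε1 ε2) (min 1 (η / 2)) with hε
  have e1 : ε ≤ ε1 := (min_le_left _ _).trans (min_le_left _ _)
  have e2 : ε ≤ ε2 := (min_le_left _ _).trans (min_le_right _ _)
  have e3 : ε ≤ 1 := (min_le_right _ _).trans (min_le_left _ _)
  have e4 : ε ≤ η / 2 := (min_le_right _ _).trans (min_le_right _ _)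
  have e0 : 0 < ε := lt_min (lt_min hε1 hε2) (lt_min one_pos (half_pos hη))
  refine ⟨ε, e0, ?_⟩
  intro X _ _ μ g h iμ ig ih μ0 hlf g0 gA gn h0 hh1 hcut
  set G : (Fin K → X) → ℝ := fun x =>
    av (fun s => ∏ j ∈ univ.erase a, g j (Function.update x a s)) with hG
  set H : (Fin K → X) → ℝ := fun x =>
    av (fun s => ∏ j ∈ univ.erase a, h j (Function.update x a s)) with hH
  have hone := h1 X μ g h iμ ig ih (hlf_mono hlf e1) g0 gA gn h0 hh1
  have hcap := h2 X μ g h iμ ig ih μ0 (hlf_mono hlf e2) g0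
    (fun j hj => gA j (mem_insert_of_mem hj))
    (fun j hj hja => gn j fun hm => (mem_insert.1 hm).elim hja hj) h0 hh1
    (fun j => cut_mono (hcut j) e2)
  have hgg : av (fun x => ∏ j, g j x) = av (fun x => g a x * G x) := by
    rw [← av_marg a (g a) (ig a) g]
    exact congrArg av (funext fun x => (mul_prod_erase univ (fun j => g j x) (mem_univ a)).symm)
  have hhh : av (fun x => ∏ j, h j x) = av (fun x => h a x * H x) := by
    rw [← av_marg a (h a) (ih a) h]
    exact congrArg av (funext fun x => (mul_prod_erase univ (fun j => h j x) (mem_univ a)).symm)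
  have hsplit : av (fun x => ∏ j, g j x) - av (fun x => ∏ j, h j x) =
      av (fun x => g a x * (G x - H x)) + av (fun x => (g a x - h a x) * H x) := by
    rw [hgg, hhh, ← av_sub, ← av_add]
    refine congrArg av (funext fun x => ?_)
    ring
  have hsec : |av (fun x => (g a x - h a x) * H x)| ≤ η / 2 := by
    have h3 : av (fun x => (g a x - h a x) * H x) =
        av (fun x => (g a x - h a x) * ∏ j ∈ univ.erase a, h j x) := by
      refine (av_marg a (fun x => g a x - h a x) ?_ h).symm
      intro x s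
      simp only [ig a x s, ih a x s]
    rw [h3]
    refine (hcut a h ih fun i x => ?_).trans e4
    rw [abs_of_nonneg (h0 i x)]
    exact hh1 i x
  have hfirst : |av (fun x => g a x * (G x - H x))| ≤ η / 2 := by
    have h3 := av_sq_le (g a) (μ a) (fun x => G x - H x) fun x => by
      rw [abs_of_nonneg (g0 a x)]
      exact gA a (mem_insert_self a A) x
    have h4 : av (fun x => μ a x * (G x - H x) ^ 2) ≤ η ^ 2 / 16 + η ^ 2 / 16 := by
      have h5 : av (fun x => μ a x * (G x - H x) ^ 2) =
          av (fun x => (μ a x - 1) * (G x - H x) ^ 2) + av (fun x => (G x - H x) ^ 2) := by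
        rw [← av_add]
        refine congrArg av (funext fun x => ?_)
        ring
      rw [h5]
      exact add_le_add ((le_abs_self _).trans hone) hcap
    have h6 : 0 ≤ av (fun x => μ a x * (G x - H x) ^ 2) :=
      av_nonneg fun x => mul_nonneg (μ0 a x) (sq_nonneg _)
    have h7 : av (μ a) ≤ 2 := (av_mu hlf a).trans (by linarith)
    refine abs_le_of_sq_le_sq ?_ (half_pos hη).le
    calc av (fun x => g a x * (G x - H x)) ^ 2
        ≤ av (μ a) * av (fun x => μ a x * (G x - H x) ^ 2) := h3
      _ ≤ 2 * av (fun x => μ a x * (G x - H x) ^ 2) := mul_le_mul_of_nonneg_right h7 h6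
      _ ≤ 2 * (η ^ 2 / 16 + η ^ 2 / 16) := by linarith
      _ = (η / 2) ^ 2 := by ring
  rw [hsplit]
  refine (abs_add_le _ _).trans ?_
  linarith

end Pool.Agent.GT.H86
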