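import Pool.Agent.GT.StmtsD

/-!
# Squad GT, row D_CRT: residue classes with prescribed symbols
-/

set_option autoImplicit false

namespace Pool.Agent.GT.D.H86

open Pool.Agent.GT.D

theorem zmod2_cases : ∀ t : ZMod 2, t = 0 ∨ t = 1 := by decide

/-- a residue with a given symbol -/
theorem exists_res (q : ℕ) [Fact q.Prime] (hq : q ≠ 2) (t : ZMod 2) : ∃ a : ZMod q, a ≠ 0 ∧
    (t = 0 → IsSquare a) ∧ (t = 1 → ¬ IsSquare a) := by
  rcases zmod2_cases t with h | h
  · refine ⟨1, one_ne_zero, fun _ => IsSquare.one, fun h1 => ?_⟩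
    rw [h] at h1
    exact absurd h1 (by decide)
  · obtain ⟨a, ha⟩ := FiniteField.exists_nonsquare (F := ZMod q) (by
      rw [ZMod.ringChar_zmod_n]
      exact hq)
    refine ⟨a, ?_, fun h1 => ?_, fun _ => ha⟩
    · rintro rfl
      exact ha (IsSquare.zero)
    · rw [h] at h1
      exact absurd h1 (by decide)

theorem crt_aux (val : ValStmt) (τ : ℕ → ZMod 2) (c : ℕ) (hc : c % 2 = 1) (hc8 : c < 8)
    (Q : Finset ℕ) : (∀ q ∈ Q, q.Prime ∧ q ≠ 2) →
    ∃ N ρ : ℕ, 0 < N ∧ (∀ q : ℕ, q.Prime → q ≠ 2 → q ∉ Q → q.Coprime N) ∧ ρ.Coprime N ∧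
      ∀ n : ℕ, n ≡ ρ [MOD N] → n % 8 = c ∧ ∀ q ∈ Q, ¬ q ∣ n ∧ ul q n = τ q := by
  classical
  induction Q using Finset.induction_on with
  | empty =>
    intro _
    refine ⟨8, c, by norm_num, ?_, ?_, ?_⟩
    · intro q hq hq2 _
      have h8 : (8 : ℕ) = 2 ^ 3 := by norm_num
      rw [h8]
      exact Nat.Coprime.pow_right 3 ((Nat.coprime_primes hq Nat.prime_two).2 hq2)
    · have h8 : (8 : ℕ) = 2 ^ 3 := by norm_num
      rw [h8]
      exact Nat.Coprime.pow_right 3 (Nat.coprime_two_right.2 (Nat.odd_iff.2 hc))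
    · intro n hn
      refine ⟨?_, fun q hq => absurd hq (Finset.notMem_empty q)⟩
      have h1 : n % 8 = c % 8 := hn
      rw [h1, Nat.mod_eq_of_lt hc8]
  | insert q Q hqQ ih =>
    intro hQ
    obtain ⟨hqp, hq2⟩ := hQ q (Finset.mem_insert_self q Q)
    have := Fact.mk hqp
    obtain ⟨N, ρ, hN, hcop, hρ, hall⟩ := ih fun q' hq' => hQ q' (Finset.mem_insert_of_mem hq')
    obtain ⟨a, ha0, ha1, ha2⟩ := exists_res q hq2 (τ q)
    have hqN : q.Coprime N := hcop q hqp hq2 hqQ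
    obtain ⟨k, hk1, hk2⟩ := Nat.chineseRemainder hqN a.val ρ
    have hkq : ∀ n : ℕ, n ≡ k [MOD q] → ((n : ℕ) : ZMod q) = a := by
      intro n hn
      have h1 : ((n : ℕ) : ZMod q) = ((a.val : ℕ) : ZMod q) :=
        (ZMod.natCast_eq_natCast_iff _ _ _).2 (hn.trans hk1)
      rw [h1, ZMod.natCast_zmod_val]
    have hndvd : ∀ n : ℕ, n ≡ k [MOD q] → ¬ q ∣ n := by
      intro n hn hd
      have h1 := hkq n hn
      rw [(ZMod.natCast_eq_zero_iff n q).2 hd] at h1
      exact ha0 h1.symm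
    refine ⟨q * N, k, Nat.mul_pos hqp.pos hN, ?_, ?_, ?_⟩
    · intro q' hq' hq'2 hq'Q
      rw [Finset.mem_insert, not_or] at hq'Q
      exact Nat.Coprime.mul_right ((Nat.coprime_primes hq' hqp).2 hq'Q.1)
        (hcop q' hq' hq'2 hq'Q.2)
    · refine Nat.Coprime.mul_right ?_ ?_
      · exact ((Nat.Prime.coprime_iff_not_dvd hqp).2 (hndvd k rfl)).symm
      · have h1 : Nat.gcd k N = Nat.gcd ρ N := hk2.gcd_eq
        unfold Nat.Coprime
        rw [h1]
        exact hρ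
    · intro n hn
      have hnq : n ≡ k [MOD q] := Nat.ModEq.of_mul_right N hn
      have hnN : n ≡ ρ [MOD N] := (Nat.ModEq.of_mul_left q hn).trans hk2
      obtain ⟨h8, hrest⟩ := hall n hnN
      refine ⟨h8, fun q' hq' => ?_⟩
      rcases Finset.mem_insert.1 hq' with rfl | hq'
      · refine ⟨hndvd n hnq, ?_⟩
        have hnd : ¬ ((q' : ℕ) : ℤ) ∣ (n : ℤ) := by
          rw [Int.natCast_dvd_natCast]
          exact hndvd n hnq
        obtain ⟨v1, v2⟩ := val.2.2.1 q' (n : ℤ) hqp hq2 hnd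
        have hcast : (((n : ℤ)) : ZMod q') = a := by
          rw [Int.cast_natCast]
          exact hkq n hnq
        rcases zmod2_cases (τ q') with h | h
        · rw [h]
          exact v1 (hcast ▸ ha1 h)
        · rw [h]
          exact v2 (hcast ▸ ha2 h)
      · exact hrest q' hq'

/-- row D_CRT -/
theorem d_crt (val : ValStmt) : CrtStmt := by
  intro Q τ c hQ hc hc8
  obtain ⟨N, ρ, h1, -, h3, h4⟩ := crt_aux val τ c hc hc8 Q hQ
  exact ⟨N, ρ, h1, h3, h4⟩

end Pool.Agent.GT.D.H86
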