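import Pool.Agent.GT.StmtsD

/-!
# Squad GT, row D_EXP: expansion of an additive function over the primes
-/

set_option autoImplicit false

namespace Pool.Agent.GT.D.H86

open Pool.Agent.GT.D

theorem vl_nat (p m : ℕ) : vl p (m : ℤ) = (padicValNat p m : ZMod 2) := by
  unfold vl padicValInt
  rw [Int.natAbs_natCast]

theorem vl_neg (p m : ℕ) : vl p (-(m : ℤ)) = (padicValNat p m : ZMod 2) := by
  unfold vl padicValInt
  rw [Int.natAbs_neg, Int.natAbs_natCast]

theorem exp_nat {f : ℤ → ZMod 2} (hf : Adf f) (P : Finset ℕ) (hP : ∀ p ∈ P, p.Prime) (m : ℕ) :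
    m ≠ 0 → m.primeFactors ⊆ P → f (m : ℤ) = ∑ p ∈ P, (padicValNat p m : ZMod 2) * f p := by
  induction m using Nat.recOnMul with
  | zero => exact fun h => absurd rfl h
  | one =>
    intro _ _
    simp [hf.one]
  | prime q hq =>
    intro _ hs
    have hqP : q ∈ P := hs (by simp [hq, hq.ne_zero])
    rw [Finset.sum_eq_single q]
    · have := Fact.mk hq
      rw [padicValNat_self]
      simp
    · intro p hp hpq
      have := Fact.mk hq
      have := Fact.mk (hP p hp)
      rw [padicValNat_primes hpq]
      simp
    · exact fun h => absurd hqP h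
  | mul a b iha ihb =>
    intro hab hs
    have ha : a ≠ 0 := left_ne_zero_of_mul hab
    have hb : b ≠ 0 := right_ne_zero_of_mul hab
    rw [Nat.primeFactors_mul ha hb] at hs
    have h1 := iha ha (Finset.union_subset_left hs)
    have h2 := ihb hb (Finset.union_subset_right hs)
    rw [Nat.cast_mul, hf.mul _ _ (by exact_mod_cast ha) (by exact_mod_cast hb), h1, h2,
      ← Finset.sum_add_distrib]
    refine Finset.sum_congr rfl fun p hp => ?_
    have := Fact.mk (hP p hp)
    rw [padicValNat.mul ha hb]
    push_cast
    ring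

/-- row D_EXP -/
theorem d_exp : ExpStmt := by
  intro f hf n hn P hP hPn
  have hm : n.natAbs ≠ 0 := Int.natAbs_ne_zero.2 hn
  have key : f (n.natAbs : ℤ) = ∑ p ∈ P, vl p n * f p := by
    rw [exp_nat hf (P ∪ n.natAbs.primeFactors) (by
      intro p hp
      rcases Finset.mem_union.1 hp with h | h
      · exact hP p h
      · exact Nat.prime_of_mem_primeFactors h) n.natAbs hm Finset.subset_union_right]
    symm
    refine Finset.sum_subset Finset.subset_union_left fun p hp hp' => ?_
    have hpr : p.Prime := by
      rcases Finset.mem_union.1 hp with h | h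
      · exact hP p h
      · exact Nat.prime_of_mem_primeFactors h
    rw [hPn p hpr hp', zero_mul]
  rcases lt_or_gt_of_ne hn with h | h
  · have h1 : n = (-1) * (n.natAbs : ℤ) := by
      rw [Int.ofNat_natAbs_of_nonpos h.le]
      ring
    have h2 : sg n = 1 := by
      unfold sg
      rw [if_pos h]
    rw [h2, one_mul, ← key, ← hf.mul _ _ (by norm_num) (by exact_mod_cast hm), ← h1]
  · have h1 : (n.natAbs : ℤ) = n := Int.natAbs_of_nonneg h.le
    have h2 : sg n = 0 := by
      unfold sg
      rw [if_neg (not_lt.2 h.le)]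
    rw [h2, zero_mul, zero_add, ← key, h1]

end Pool.Agent.GT.D.H86
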